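import Mathlib

/-!
Definitions for the theorem: every Asplund James tree space has an equivalent Fréchet smooth norm.
-/

set_option autoImplicit false

namespace Pool.Agent.JTS

/-- A (set-theoretic) tree: the order is well founded and the nodes below a node are comparable. -/
structure IsTree (T : Type) [PartialOrder T] : Prop where
  wf : WellFounded ((· < ·) : T → T → Prop)
  lin : ∀ t a b : T, a ≤ t → b ≤ t → a ≤ b ∨ b ≤ a

open Classical in
/-- The sum of the values of a finitely supported function on the nodes of the set `S`. -/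
noncomputable def fsum {T Z : Type} [AddCommMonoid Z] (S : Set T) (x : T →₀ Z) : Z :=
  ∑ u ∈ x.support.filter (fun u => u ∈ S), x u

/-- A finite family of pairwise disjoint segments `Set.Icc s t`, `s ≤ t`. -/
def Fam {T : Type} [PartialOrder T] (F : Finset (T × T)) : Prop :=
  (∀ j ∈ F, j.1 ≤ j.2) ∧
    ∀ i ∈ F, ∀ j ∈ F, i ≠ j → Disjoint (Set.Icc i.1 i.2) (Set.Icc j.1 j.2)

/-- `X`, with the embedding `e` of the finitely supported functions `T → Z`, is the James tree space `JT_p(T; Z)`: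
the finitely supported functions are dense, and the norm of such a function `x` is given by
`‖x‖ ^ p = sup ∑ ‖∑_{u ∈ S_i} x u‖ ^ p`, the supremum over all finite families of pairwise disjoint segments `S_i`. -/
structure IsJT (T Z X : Type) [PartialOrder T] [NormedAddCommGroup Z] [NormedSpace ℝ Z]
    [NormedAddCommGroup X] [NormedSpace ℝ X] (p : ℝ) (e : (T →₀ Z) →ₗ[ℝ] X) : Prop where
  dense : DenseRange e
  norm : ∀ x : T →₀ Z, IsLUB {a : ℝ | ∃ F : Finset (T × T), Fam F ∧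
    a = ∑ j ∈ F, ‖fsum (Set.Icc j.1 j.2) x‖ ^ p} (‖e x‖ ^ p)

/-- `N` is an equivalent norm on `X`, Fréchet differentiable at every nonzero point. -/
structure SmoothNorm (X : Type) [NormedAddCommGroup X] [NormedSpace ℝ X] (N : X → ℝ) : Prop where
  tri : ∀ x y : X, N (x + y) ≤ N x + N y
  hom : ∀ (c : ℝ) (x : X), N (c • x) = |c| * N x
  equiv : ∃ a b : ℝ, 0 < a ∧ 0 < b ∧ ∀ x : X, a * ‖x‖ ≤ N x ∧ N x ≤ b * ‖x‖
  smooth : ∀ x : X, x ≠ 0 → DifferentiableAt ℝ N x

/-- `X` is an Asplund space: every continuous convex function on an open convex set is Fréchet differentiable on a dense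
`G_δ` subset of its domain. -/
def Asplund (X : Type) [NormedAddCommGroup X] [NormedSpace ℝ X] : Prop :=
  ∀ (U : Set X), IsOpen U → Convex ℝ U → ∀ f : X → ℝ, ConvexOn ℝ U f → ContinuousOn f U →
    ∃ G : Set X, G ⊆ U ∧ IsGδ G ∧ U ⊆ closure G ∧ ∀ x ∈ G, DifferentiableAt ℝ f x

/-- An initial chain: a chain that contains, with a node, all nodes below it. -/
structure IC {T : Type} [PartialOrder T] (c : Set T) : Prop where
  low : ∀ a ∈ c, ∀ b : T, b ≤ a → b ∈ c
  chain : ∀ a ∈ c, ∀ b ∈ c, a ≤ b ∨ b ≤ a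

/-- A convex chain. -/
structure CC {T : Type} [PartialOrder T] (S : Set T) : Prop where
  chain : ∀ a ∈ S, ∀ b ∈ S, a ≤ b ∨ b ≤ a
  conv : ∀ a ∈ S, ∀ b ∈ S, ∀ t : T, a ≤ t → t ≤ b → t ∈ S

/-- The dyadic tree embeds into `T`. -/
def Dyadic (T : Type) [PartialOrder T] : Prop :=
  ∃ f : List Bool → T, (∀ l b, f l < f (b :: l)) ∧
    ∀ l, ¬ f (true :: l) ≤ f (false :: l) ∧ ¬ f (false :: l) ≤ f (true :: l)

/-- A preferred branch `top u` through every node `u`; every initial chain follows a preferred branch from some node on. -/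
structure Top {T : Type} [PartialOrder T] (top : T → Set T) : Prop where
  ic : ∀ u, IC (top u)
  self : ∀ u, u ∈ top u
  coh : ∀ u w, u ≤ w → w ∈ top u → top w = top u
  tail : ∀ z : Set T, IC z → z.Nonempty → ∃ w ∈ z, z ⊆ top w

/-- The initial chain that belongs to an end: `(u, false)` is the end just below `u`, `(u, true)` is the top of the preferred
branch through `u`. -/
def ec {T : Type} [PartialOrder T] (top : T → Set T) (e : T × Bool) : Set T :=
  if e.2 then top e.1 else Set.Iio e.1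

/-- The segment with start `j.1` and end `j.2`. -/
def sg {T : Type} [PartialOrder T] (top : T → Set T) (j : T × (T × Bool)) : Set T :=
  {t | t ∈ ec top j.2 ∧ j.1 ≤ t}

/-- A finite family of pairwise disjoint decorated segments. -/
def Fm {T : Type} [PartialOrder T] (top : T → Set T) (F : Finset (T × (T × Bool))) : Prop :=
  (∀ j ∈ F, j.1 ∈ ec top j.2) ∧ ∀ i ∈ F, ∀ j ∈ F, i ≠ j → Disjoint (sg top i) (sg top j)

/-- The index set of the weights: starts and ends. -/
abbrev Ix (T : Type) : Type := T ⊕ (T × Bool)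

/-- The setting: `σ S x` is the sum of `x` over the convex chain `S`, `ν` is a smooth norm on `Z` with `‖z‖ ≤ ν z ≤ B ‖z‖`,
`1 < r < p`. -/
structure Sys (T Z X : Type) [PartialOrder T] [NormedAddCommGroup Z] [NormedSpace ℝ Z]
    [NormedAddCommGroup X] [NormedSpace ℝ X] (top : T → Set T) (p r B : ℝ) (ν : Z → ℝ)
    (e : (T →₀ Z) →ₗ[ℝ] X) (σ : Set T → X →L[ℝ] Z) : Prop where
  tree : IsTree T
  htop : Top top
  hr : 1 < r
  hrp : r < p
  hB : 1 ≤ B
  tri : ∀ z w : Z, ν (z + w) ≤ ν z + ν w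
  hom : ∀ (c : ℝ) (z : Z), ν (c • z) = |c| * ν z
  lo : ∀ z : Z, ‖z‖ ≤ ν z
  up : ∀ z : Z, ν z ≤ B * ‖z‖
  smooth : ∀ z : Z, z ≠ 0 → DifferentiableAt ℝ ν z
  dense : DenseRange e
  fin : ∀ S : Set T, CC S → ∀ x : T →₀ Z, σ S (e x) = fsum S x
  bd : ∀ (F : Finset (Set T)), (∀ S ∈ F, CC S) → (∀ S ∈ F, ∀ R ∈ F, S ≠ R → Disjoint S R) →
    ∀ x : X, ∑ S ∈ F, ‖σ S x‖ ^ p ≤ ‖x‖ ^ p
  nlow : ∀ (x : X) (δ : ℝ), 0 < δ → ∃ F : Finset (T × T), Fam F ∧
    ‖x‖ ^ p - δ ≤ ∑ j ∈ F, ‖σ (Set.Icc j.1 j.2) x‖ ^ p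

section
variable {T Z X : Type} [PartialOrder T] [NormedAddCommGroup Z] [NormedSpace ℝ Z]
    [NormedAddCommGroup X] [NormedSpace ℝ X]

/-- The `r`-th power of the value of a decorated segment. -/
noncomputable def P (top : T → Set T) (r : ℝ) (ν : Z → ℝ) (σ : Set T → X →L[ℝ] Z)
    (w : Ix T → ℝ) (j : T × (T × Bool)) (x : X) : ℝ :=
  ν (σ (sg top j) x) ^ r + w (Sum.inl j.1) * ν (σ {j.1} x) ^ r +
    w (Sum.inr j.2) * ν (σ {j.2.1} x) ^ r

/-- The value of a family. -/
noncomputable def PF (top : T → Set T) (p r : ℝ) (ν : Z → ℝ) (σ : Set T → X →L[ℝ] Z)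
    (w : Ix T → ℝ) (F : Finset (T × (T × Bool))) (x : X) : ℝ :=
  ∑ j ∈ F, P top r ν σ w j x ^ (p / r)

/-- The `p`-th power of the norm with the weights `w`. -/
noncomputable def Phi (top : T → Set T) (p r : ℝ) (ν : Z → ℝ) (σ : Set T → X →L[ℝ] Z)
    (w : Ix T → ℝ) (x : X) : ℝ :=
  sSup {a : ℝ | ∃ F : Finset (T × (T × Bool)), Fm top F ∧ a = PF top p r ν σ w F x}

end

end Pool.Agent.JTS
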