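import Pool.Agent.Lib.MP_05b481_an.JT.Defs

/-!
Nodes below the nodes of a dyadic subtree.
-/

set_option autoImplicit false

namespace Pool.Agent.JTS

variable {T : Type} [PartialOrder T]

private theorem E1a_split (l₁ : List Bool) : ∀ l₂ : List Bool, l₁ <:+ l₂ ∨ l₂ <:+ l₁ ∨
    ∃ (l₀ : List Bool) (b : Bool), (b :: l₀) <:+ l₁ ∧ ((!b) :: l₀) <:+ l₂ := by
  induction l₁ using List.reverseRecOn with
  | nil => intro l₂; exact Or.inl (List.nil_suffix)
  | append_singleton l₁ a ih =>
    intro l₂
    induction l₂ using List.reverseRecOn with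
    | nil => exact Or.inr (Or.inl (List.nil_suffix))
    | append_singleton l₂ c _ =>
      by_cases hac : a = c
      · subst hac
        rcases ih l₂ with h | h | ⟨l₀, b, h1, h2⟩
        · left
          obtain ⟨t, rfl⟩ := h
          exact ⟨t, by simp⟩
        · right; left
          obtain ⟨t, rfl⟩ := h
          exact ⟨t, by simp⟩
        · right; right
          obtain ⟨t1, rfl⟩ := h1
          obtain ⟨t2, rfl⟩ := h2
          exact ⟨l₀ ++ [a], b, ⟨t1, by simp⟩, ⟨t2, by simp⟩⟩
      · right; right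
        refine ⟨[], a, ⟨l₁, by simp⟩, ⟨l₂, ?_⟩⟩
        cases a <;> cases c <;> simp_all

private theorem E1a_mono (f : List Bool → T) (h1 : ∀ l b, f l < f (b :: l)) :
    ∀ l l' : List Bool, l <:+ l' → f l ≤ f l' := by
  rintro l l' ⟨t, rfl⟩
  induction t with
  | nil => simp
  | cons b t ih => exact ih.trans (by simpa using (h1 (t ++ l) b).le)

/-- For a node `u`, whether `u ≤ f l` does not change any more when a long enough `l` is extended. PROOF. If `u ≤ f l` then `u ≤ f l'` for every extension `l' = m ++ l` (the lists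
grow at the head: `f l < f (b :: l)`). Let `l₁, l₂` be two lists with `u ≤ f l₁`, `u ≤ f l₂`, neither a suffix of the other: `l₁ = m₁ ++ true :: l₀`,
`l₂ = m₂ ++ false :: l₀` (or exchanged). `f (true :: l₀) ≤ f l₁`, `u ≤ f l₁`: comparable; if `f (true :: l₀) ≤ u` then `f (true :: l₀) ≤ u ≤ f l₂`, also `f (false :: l₀) ≤ f l₂`, so
they are comparable: contradiction. So `u ≤ f (true :: l₀)`, and `u ≤ f (false :: l₀)` in the same way. Choose `l₁` of minimal length with `u ≤ f l₁` (if there is none, `n = 0`).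
Let `l₂` have length `≥ n := l₁.length + 1` and `m ++ l₂` an extension with `u ≤ f (m ++ l₂)`; claim `u ≤ f l₂`. If `l₁` is a suffix of `l₂`: yes. Otherwise `l₁` is not a suffix of
`m ++ l₂` (it is shorter than `l₂`), nor conversely, so with the common suffix `l₀`: `u ≤ f (b :: l₀)` for both `b`, `b :: l₀` a suffix of `m ++ l₂` of length `≤ l₁.length ≤ l₂.length`, so a suffix of
`l₂`, and `u ≤ f l₂`. -/
theorem eventually_const (hT : IsTree T) (f : List Bool → T) (h1 : ∀ l b, f l < f (b :: l))
    (h2 : ∀ l, ¬ f (true :: l) ≤ f (false :: l) ∧ ¬ f (false :: l) ≤ f (true :: l)) (u : T) :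
    ∃ n : ℕ, ∀ l : List Bool, n ≤ l.length → ∀ m : List Bool, u ≤ f (m ++ l) → u ≤ f l := by
  have hmono := E1a_mono f h1
  have h2' : ∀ l b, ¬ f (b :: l) ≤ f ((!b) :: l) := by
    intro l b
    cases b
    · exact (h2 l).2
    · exact (h2 l).1
  by_cases hex : ∃ l₁ : List Bool, u ≤ f l₁
  · obtain ⟨l₁, hl₁⟩ := hex
    refine ⟨l₁.length, fun l hl m hm => ?_⟩
    rcases E1a_split l₁ l with h | h | ⟨l₀, b, hb1, hb2⟩
    · exact hl₁.trans (hmono _ _ h)
    · have : l = l₁ := h.eq_of_length (le_antisymm h.length_le hl)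
      rw [this]; exact hl₁
    · have hA : f (b :: l₀) ≤ f l₁ := hmono _ _ hb1
      have hB : f ((!b) :: l₀) ≤ f (m ++ l) := hmono _ _ (hb2.trans ⟨m, rfl⟩)
      rcases hT.lin _ _ _ hB hm with h3 | h3
      · exfalso
        have h4 : f ((!b) :: l₀) ≤ f l₁ := h3.trans hl₁
        rcases hT.lin _ _ _ hA h4 with h5 | h5
        · exact h2' l₀ b h5
        · have := h2' l₀ (!b)
          rw [Bool.not_not] at this
          exact this h5
      · exact h3.trans (hmono _ _ hb2)
  · exact ⟨0, fun l _ m hm => absurd ⟨_, hm⟩ hex⟩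

end Pool.Agent.JTS
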