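import Pool.Agent.Lib.MP_05b481_an.Mg.G002
import Pool.Agent.Lib.MP_05b481_an.JT.E1a

/-!
An Asplund James tree space has no dyadic subtree.
-/

set_option autoImplicit false

namespace Pool.Agent.JTS

open Filter Topology

variable {T Z X : Type} [PartialOrder T] [NormedAddCommGroup Z] [NormedSpace ℝ Z]
    [NormedAddCommGroup X] [NormedSpace ℝ X]

/-- The supremum over the lists of length at least `n`. -/
private noncomputable def E1_s (ψ : List Bool → X →L[ℝ] ℝ) (n : ℕ) (x : X) : ℝ :=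
  ⨆ l : {l : List Bool // n ≤ l.length}, ψ l x

/-- The upper limit along the lists. -/
private noncomputable def E1_phi (ψ : List Bool → X →L[ℝ] ℝ) (x : X) : ℝ := ⨅ n, E1_s ψ n x

private theorem E1_nonempty (n : ℕ) : Nonempty {l : List Bool // n ≤ l.length} :=
  ⟨⟨List.replicate n true, by simp⟩⟩

private theorem E1_le_s {ψ : List Bool → X →L[ℝ] ℝ} (hψ : ∀ l x, |ψ l x| ≤ ‖x‖) {n : ℕ}
    {l : List Bool} (hl : n ≤ l.length) (x : X) : ψ l x ≤ E1_s ψ n x := by
  have hb : BddAbove (Set.range fun l : {l : List Bool // n ≤ l.length} => ψ l x) := by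
    refine ⟨‖x‖, ?_⟩
    rintro _ ⟨l, rfl⟩
    exact (le_abs_self _).trans (hψ _ _)
  exact le_ciSup hb (⟨l, hl⟩ : {l : List Bool // n ≤ l.length})

private theorem E1_s_le {ψ : List Bool → X →L[ℝ] ℝ} {n : ℕ} {x : X} {c : ℝ}
    (h : ∀ l : List Bool, n ≤ l.length → ψ l x ≤ c) : E1_s ψ n x ≤ c := by
  have := E1_nonempty n
  exact ciSup_le fun l => h l.1 l.2

private theorem E1_s_lower {ψ : List Bool → X →L[ℝ] ℝ} (hψ : ∀ l x, |ψ l x| ≤ ‖x‖) (n : ℕ)
    (x : X) : -‖x‖ ≤ E1_s ψ n x := by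
  have hl : n ≤ (List.replicate n true).length := by simp
  exact (neg_le_of_abs_le (hψ _ x)).trans (E1_le_s hψ hl x)

private theorem E1_phi_le {ψ : List Bool → X →L[ℝ] ℝ} (hψ : ∀ l x, |ψ l x| ≤ ‖x‖) (n : ℕ)
    (x : X) : E1_phi ψ x ≤ E1_s ψ n x := by
  have hb : BddBelow (Set.range fun n => E1_s ψ n x) := by
    refine ⟨-‖x‖, ?_⟩
    rintro _ ⟨n, rfl⟩
    exact E1_s_lower hψ n x
  exact ciInf_le hb n

private theorem E1_le_phi {ψ : List Bool → X →L[ℝ] ℝ} {x : X} {c : ℝ}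
    (h : ∀ n, c ≤ E1_s ψ n x) : c ≤ E1_phi ψ x := le_ciInf h

private theorem E1_anti {ψ : List Bool → X →L[ℝ] ℝ} (hψ : ∀ l x, |ψ l x| ≤ ‖x‖) {n m : ℕ}
    (hnm : n ≤ m) (x : X) : E1_s ψ m x ≤ E1_s ψ n x :=
  E1_s_le fun _ hl => E1_le_s hψ (hnm.trans hl) x

private theorem E1_exists {ψ : List Bool → X →L[ℝ] ℝ} (x : X) {ε : ℝ} (hε : 0 < ε) :
    ∃ n, E1_s ψ n x < E1_phi ψ x + ε :=
  exists_lt_of_ciInf_lt (lt_add_of_pos_right _ hε)

private theorem E1_convex {ψ : List Bool → X →L[ℝ] ℝ} (hψ : ∀ l x, |ψ l x| ≤ ‖x‖) :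
    ConvexOn ℝ Set.univ (E1_phi ψ) := by
  refine ⟨convex_univ, fun x _ y _ a b ha hb hab => ?_⟩
  refine le_of_forall_pos_le_add fun ε hε => ?_
  obtain ⟨n, hn⟩ := E1_exists (ψ := ψ) x hε
  obtain ⟨m, hm⟩ := E1_exists (ψ := ψ) y hε
  have h1 : E1_s ψ (max n m) x ≤ E1_phi ψ x + ε :=
    (E1_anti hψ (le_max_left n m) x).trans hn.le
  have h2 : E1_s ψ (max n m) y ≤ E1_phi ψ y + ε :=
    (E1_anti hψ (le_max_right n m) y).trans hm.le
  have h3 : E1_s ψ (max n m) (a • x + b • y) ≤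
      a * E1_s ψ (max n m) x + b * E1_s ψ (max n m) y := by
    refine E1_s_le fun l hl => ?_
    rw [map_add, map_smul, map_smul, smul_eq_mul, smul_eq_mul]
    exact add_le_add (mul_le_mul_of_nonneg_left (E1_le_s hψ hl x) ha)
      (mul_le_mul_of_nonneg_left (E1_le_s hψ hl y) hb)
  have h4 := mul_le_mul_of_nonneg_left h1 ha
  have h5 := mul_le_mul_of_nonneg_left h2 hb
  have h6 := E1_phi_le hψ (max n m) (a • x + b • y)
  have h7 : a * ε + b * ε = ε := by rw [← add_mul, hab, one_mul]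
  rw [smul_eq_mul, smul_eq_mul]
  nlinarith

private theorem E1_lip {ψ : List Bool → X →L[ℝ] ℝ} (hψ : ∀ l x, |ψ l x| ≤ ‖x‖) (x y : X) :
    E1_phi ψ x ≤ E1_phi ψ y + ‖x - y‖ := by
  rw [← sub_le_iff_le_add]
  refine E1_le_phi fun n => ?_
  rw [sub_le_iff_le_add]
  refine (E1_phi_le hψ n x).trans (E1_s_le fun l hl => ?_)
  have h1 : ψ l x = ψ l y + ψ l (x - y) := by rw [← map_add, add_sub_cancel]
  rw [h1]
  exact add_le_add (E1_le_s hψ hl y) ((le_abs_self _).trans (hψ _ _))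

private theorem E1_cont {ψ : List Bool → X →L[ℝ] ℝ} (hψ : ∀ l x, |ψ l x| ≤ ‖x‖) :
    Continuous (E1_phi ψ) := by
  refine (LipschitzWith.of_le_add fun x y => ?_ : LipschitzWith 1 (E1_phi ψ)).continuous
  rw [dist_eq_norm]
  exact E1_lip hψ x y

/-- Many lists with almost the value of the upper limit. -/
private theorem E1_attain {ψ : List Bool → X →L[ℝ] ℝ} (hψ : ∀ l x, |ψ l x| ≤ ‖x‖) (x : X)
    {δ : ℝ} (hδ : 0 < δ) (n : ℕ) : ∃ l : List Bool, n ≤ l.length ∧ E1_phi ψ x - δ < ψ l x := by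
  by_contra hcon
  push Not at hcon
  have h1 : E1_s ψ n x ≤ E1_phi ψ x - δ := E1_s_le hcon
  have h2 := E1_phi_le hψ n x
  linarith

/-- Lower bound by the extensions of one list. -/
private theorem E1_lower {ψ : List Bool → X →L[ℝ] ℝ} (hψ : ∀ l x, |ψ l x| ≤ ‖x‖) (x : X)
    {c : ℝ} (l : List Bool) (h : ∀ m : List Bool, c ≤ ψ (m ++ l) x) : c ≤ E1_phi ψ x := by
  refine E1_le_phi fun n => ?_
  exact (h (List.replicate n true)).trans (E1_le_s hψ (by simp) x)

/-- Second differences at a point of differentiability. -/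
private theorem E1_second {φ : X → ℝ} {x : X} (hd : DifferentiableAt ℝ φ x) :
    ∃ r : ℝ, 0 < r ∧ ∀ v : X, ‖v‖ < r → φ (x + v) + φ (x - v) - 2 * φ x ≤ ‖v‖ / 4 := by
  obtain ⟨φ', hφ'⟩ := hd
  have h1 := (hasFDerivAt_iff_isLittleO_nhds_zero.1 hφ').def (show (0 : ℝ) < 1 / 8 by norm_num)
  obtain ⟨r, hr, h2⟩ := Metric.eventually_nhds_iff.1 h1
  refine ⟨r, hr, fun v hv => ?_⟩
  have h3 := h2 (y := v) (by rwa [dist_zero_right])
  have h4 := h2 (y := -v) (by rwa [dist_zero_right, norm_neg])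
  rw [Real.norm_eq_abs] at h3 h4
  rw [norm_neg, map_neg, ← sub_eq_add_neg] at h4
  have h5 := (abs_le.1 h3).2
  have h6 := (abs_le.1 h4).2
  linarith

private theorem E1_mono {f : List Bool → T} (h1 : ∀ l b, f l < f (b :: l)) (l : List Bool) :
    ∀ m : List Bool, f l ≤ f (m ++ l)
  | [] => le_rfl
  | b :: m => (E1_mono h1 l m).trans (h1 (m ++ l) b).le

private theorem E1_norm_single {p : ℝ} (hp : 1 < p) {e : (T →₀ Z) →ₗ[ℝ] X}
    (hJ : IsJT T Z X p e) (u : T) (z : Z) : ‖e (Finsupp.single u z)‖ ≤ ‖z‖ := by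
  classical
  have hp0 : (0 : ℝ) < p := by linarith
  rw [← Real.rpow_le_rpow_iff (norm_nonneg _) (norm_nonneg _) hp0]
  refine (hJ.norm (Finsupp.single u z)).2 ?_
  rintro a ⟨F, hF, rfl⟩
  have h1 : ∀ j ∈ F, ‖fsum (Set.Icc j.1 j.2) (Finsupp.single u z)‖ ^ p =
      if u ∈ Set.Icc j.1 j.2 then ‖z‖ ^ p else 0 := by
    intro j _
    rw [fsum_single]
    split_ifs with h
    · rfl
    · rw [norm_zero, Real.zero_rpow hp0.ne']
  rw [Finset.sum_congr rfl h1, ← Finset.sum_filter, Finset.sum_const]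
  have h2 : (F.filter fun j : T × T => u ∈ Set.Icc j.1 j.2).card ≤ 1 := by
    rw [Finset.card_le_one]
    intro i hi j hj
    rw [Finset.mem_filter] at hi hj
    by_contra hij
    exact (Set.disjoint_left.1 (hF.2 i hi.1 j hj.1 hij)) hi.2 hj.2
  have h3 : (0 : ℝ) ≤ ‖z‖ ^ p := Real.rpow_nonneg (norm_nonneg _) _
  rw [nsmul_eq_mul]
  have h4 : (((F.filter fun j : T × T => u ∈ Set.Icc j.1 j.2).card : ℕ) : ℝ) ≤ 1 := by
    exact_mod_cast h2
  nlinarith

/-- PROOF. Suppose `f` embeds the dyadic tree. Let `σ` be from `exists_sigma`, `z₀ ≠ 0` in `Z`, `g : Z →L[ℝ] ℝ` with `‖g‖ = 1`, `g z₀ = ‖z₀‖` (Hahn-Banach `exists_dual_vector`).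
`φ x = ⨅ n, ⨆ (l : {l : List Bool // n ≤ l.length}), g (σ (Set.Iic (f l)) x)`. It is finite (`|g (σ ..)| ≤ ‖x‖`), convex and `1`-Lipschitz (the suprema are sublinear and decrease with `n`, so
the infimum is their limit). `f` Asplund with `U = univ` gives a point `x` of differentiability. Let `t > 0`, `δ > 0`, `y` with `‖x - e y‖ < δ`, and `n₀` larger than
the numbers of `eventually_const` for all `u ∈ y.support`. There is `l`, `n₀ ≤ l.length`, with `g (σ (Iic (f l)) x) ≥ φ x - δ`. For every extension `l' = m ++ l`: `fsum (Iic (f l')) y = fsum (Iic (f l)) y`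
(the same nodes of the support), so `g (σ (Iic (f l')) x) ≥ φ x - 3 δ`. Let `v = e (Finsupp.single (f (true :: l)) (t • z₀))`, `‖v‖ = t ‖z₀‖` (by `hJ.norm`; `≤` is enough: `‖fsum S (single ..)‖ ^ p` is nonzero for at most one
of disjoint segments). For extensions `l'` of `true :: l`: `g (σ (Iic (f l')) (x + v)) ≥ φ x - 3 δ + t ‖z₀‖`, so `φ (x + v) ≥ φ x - 3 δ + t ‖z₀‖`. For extensions `l'` of `false :: l`: `f (true :: l) ≤ f l'` is false
(otherwise `f (true :: l)`, `f (false :: l)` are comparable), so `g (σ (Iic (f l')) (x - v)) = g (σ (Iic (f l')) x) ≥ φ x - 3 δ`, `φ (x - v) ≥ φ x - 3 δ`. So `φ (x+v) + φ (x-v) - 2 φ x ≥ t ‖z₀‖ - 6 δ`; with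
`δ = t ‖z₀‖ / 12`: `≥ ‖v‖ / 2`, for vectors `v` of arbitrarily small norm `t ‖z₀‖`; this contradicts differentiability (second difference `= o(‖v‖)`). -/
theorem not_dyadic [CompleteSpace Z] [Nontrivial Z] (hT : IsTree T) {p : ℝ} (hp : 1 < p)
    {e : (T →₀ Z) →ₗ[ℝ] X} (hJ : IsJT T Z X p e) (hA : Asplund X) : ¬ Dyadic T := by
  rintro ⟨f, h1, h2⟩
  have hp0 : (0 : ℝ) < p := by linarith
  obtain ⟨σ, hσ1, hσ2, -⟩ := exists_sigma hT hp hJ
  obtain ⟨z₀, hz₀⟩ := exists_ne (0 : Z)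
  have hz0 : 0 < ‖z₀‖ := norm_pos_iff.2 hz₀
  obtain ⟨g, hg1, hg2⟩ := exists_dual_vector ℝ z₀ hz0.ne'
  have hcc : ∀ t : T, CC (Set.Iic t) := fun t =>
    ⟨fun a ha b hb => hT.lin t a b ha hb, fun a _ b hb s _ hs => le_trans hs hb⟩
  let ψ : List Bool → X →L[ℝ] ℝ := fun l => g.comp (σ (Set.Iic (f l)))
  have hψa : ∀ l x, ψ l x = g (σ (Set.Iic (f l)) x) := fun _ _ => rfl
  have hψ : ∀ l x, |ψ l x| ≤ ‖x‖ := by
    intro l x
    have h3 := hσ2 {Set.Iic (f l)} (by simpa using hcc (f l)) (by simp) x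
    rw [Finset.sum_singleton, Real.rpow_le_rpow_iff (norm_nonneg _) (norm_nonneg _) hp0] at h3
    have h4 := g.le_opNorm (σ (Set.Iic (f l)) x)
    rw [hg1, one_mul, Real.norm_eq_abs] at h4
    exact h4.trans h3
  obtain ⟨G, -, -, hG, hGd⟩ := hA Set.univ isOpen_univ convex_univ (E1_phi ψ) (E1_convex hψ)
    (E1_cont hψ).continuousOn
  obtain ⟨x, hx⟩ : G.Nonempty := closure_nonempty_iff.1 ⟨0, hG (Set.mem_univ _)⟩
  obtain ⟨r, hr, hsec⟩ := E1_second (hGd x hx)
  set ρ : ℝ := r / 2 with hρ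
  have hρ0 : 0 < ρ := by positivity
  set t : ℝ := ρ / ‖z₀‖ with ht
  have ht0 : 0 < t := by positivity
  have htz : t * ‖z₀‖ = ρ := by rw [ht]; field_simp
  set δ : ℝ := ρ / 12 with hδ
  have hδ0 : 0 < δ := by positivity
  obtain ⟨y, hy⟩ := hJ.dense.exists_dist_lt x hδ0
  rw [dist_eq_norm] at hy
  choose nn hnn using eventually_const hT f h1 h2
  obtain ⟨l, hl, hlx⟩ := E1_attain hψ x hδ0 (y.support.sup nn)
  have hmono := E1_mono (T := T) h1
  -- the values at `x` along the extensions of `l`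
  have hext : ∀ m : List Bool, E1_phi ψ x - 3 * δ ≤ ψ (m ++ l) x := by
    intro m
    have h3 : fsum (Set.Iic (f (m ++ l))) y = fsum (Set.Iic (f l)) y := by
      refine fsum_congr _ _ y fun u hu => ⟨fun h => ?_, fun h => ?_⟩
      · exact hnn u l ((Finset.le_sup hu).trans hl) m h
      · exact le_trans h (hmono l m)
    have h4 : ψ (m ++ l) (e y) = ψ l (e y) := by
      rw [hψa, hψa, hσ1 _ (hcc _), hσ1 _ (hcc _), h3]
    have h5 := hψ (m ++ l) (x - e y)
    have h6 := hψ l (x - e y)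
    rw [map_sub] at h5 h6
    have h7 := (abs_le.1 h5).1
    have h8 := (abs_le.1 h6).2
    linarith
  set v : X := e (Finsupp.single (f (true :: l)) (t • z₀)) with hv
  have hvn : ‖v‖ ≤ ρ := by
    refine (E1_norm_single hp hJ _ _).trans ?_
    rw [norm_smul, Real.norm_eq_abs, abs_of_pos ht0, htz]
  have hplus : E1_phi ψ x - 3 * δ + ρ ≤ E1_phi ψ (x + v) := by
    refine E1_lower hψ _ (true :: l) fun m => ?_
    have h3 : ψ (m ++ true :: l) v = ρ := by
      have hin : f (true :: l) ∈ Set.Iic (f (m ++ true :: l)) := hmono (true :: l) m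
      rw [hψa, hv, hσ1 _ (hcc _), fsum_single, if_pos hin, map_smul, hg2, smul_eq_mul]
      exact htz
    rw [map_add, h3]
    have h4 := hext (m ++ [true])
    rw [List.append_assoc, List.singleton_append] at h4
    linarith
  have hminus : E1_phi ψ x - 3 * δ ≤ E1_phi ψ (x - v) := by
    refine E1_lower hψ _ (false :: l) fun m => ?_
    have h3 : ψ (m ++ false :: l) v = 0 := by
      have hnot : ¬ f (true :: l) ∈ Set.Iic (f (m ++ false :: l)) := by
        intro h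
        rcases hT.lin _ _ _ h (hmono (false :: l) m) with h5 | h5
        · exact (h2 l).1 h5
        · exact (h2 l).2 h5
      rw [hψa, hv, hσ1 _ (hcc _), fsum_single, if_neg hnot, map_zero]
    rw [map_sub, h3, sub_zero]
    have h4 := hext (m ++ [false])
    rw [List.append_assoc, List.singleton_append] at h4
    exact h4
  have hfin := hsec v (lt_of_le_of_lt hvn (by rw [hρ]; linarith))
  have : δ = ρ / 12 := hδ
  linarith

end Pool.Agent.JTS
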