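import Pool.Agent.Lib.MP_05b481_an.Mg.G001
import Pool.Agent.Lib.MP_05b481_an.Mg.G002
import Pool.Agent.Lib.MP_05b481_an.Mg.G010
import Pool.Agent.Lib.MP_05b481_an.JT.E1

/-!
Every Asplund James tree space `JT_p(T; Z)` has an equivalent Fréchet smooth norm, if `Z` has one.
-/

set_option autoImplicit false

namespace Pool.Agent.JTS

/-- PROOF. Scale `ν` by `1 / a`. `r = (1 + p) / 2`. -/
theorem exists_sys {T Z X : Type} [PartialOrder T] [NormedAddCommGroup Z] [NormedSpace ℝ Z]
    [CompleteSpace Z] [NormedAddCommGroup X] [NormedSpace ℝ X] (hT : IsTree T) {p : ℝ}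
    (hp : 1 < p) {ν : Z → ℝ} (hν : SmoothNorm Z ν) {e : (T →₀ Z) →ₗ[ℝ] X} (hJ : IsJT T Z X p e)
    (hD : ¬ Dyadic T) :
    ∃ (top : T → Set T) (r B : ℝ) (ν' : Z → ℝ) (σ : Set T → X →L[ℝ] Z),
      Sys T Z X top p r B ν' e σ := by
  obtain ⟨rk, h1, h2⟩ := exists_rank hD
  obtain ⟨top, htop⟩ := exists_top hT rk h1 h2
  obtain ⟨σ, s1, s2, s3⟩ := exists_sigma hT hp hJ
  obtain ⟨a, b, ha, hb, hab⟩ := hν.equiv
  refine ⟨top, (1 + p) / 2, max 1 (b / a), fun z => a⁻¹ * ν z, σ, ?_⟩
  have ha' : 0 < a⁻¹ := inv_pos.2 ha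
  exact
    { tree := hT
      htop := htop
      hr := by linarith
      hrp := by linarith
      hB := le_max_left _ _
      tri := fun z w => by
        have := mul_le_mul_of_nonneg_left (hν.tri z w) ha'.le
        linarith
      hom := fun c z => by
        rw [hν.hom]
        ring
      lo := fun z => by
        have := mul_le_mul_of_nonneg_left (hab z).1 ha'.le
        rwa [← mul_assoc, inv_mul_cancel₀ ha.ne', one_mul] at this
      up := fun z => by
        have h3 := mul_le_mul_of_nonneg_left (hab z).2 ha'.le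
        refine h3.trans ?_
        rw [← mul_assoc]
        refine mul_le_mul_of_nonneg_right ?_ (norm_nonneg z)
        refine le_trans (le_of_eq ?_) (le_max_right _ _)
        rw [div_eq_mul_inv, mul_comm]
      smooth := fun z hz => (hν.smooth z hz).const_mul _
      dense := hJ.dense
      fin := s1
      bd := s2
      nlow := s3 }

/-- The theorem for trees without dyadic subtree. -/
theorem main_tree {T Z X : Type} [PartialOrder T] [NormedAddCommGroup Z] [NormedSpace ℝ Z]
    [CompleteSpace Z] [NormedAddCommGroup X] [NormedSpace ℝ X] (hT : IsTree T) {p : ℝ}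
    (hp : 1 < p) {ν : Z → ℝ} (hν : SmoothNorm Z ν) {e : (T →₀ Z) →ₗ[ℝ] X} (hJ : IsJT T Z X p e)
    (hD : ¬ Dyadic T) : ∃ N : X → ℝ, SmoothNorm X N := by
  obtain ⟨top, r, B, ν', σ, h⟩ := exists_sys hT hp hν hJ hD
  exact h.exists_norm

theorem main {T Z X : Type} [PartialOrder T] [NormedAddCommGroup Z] [NormedSpace ℝ Z]
    [CompleteSpace Z] [NormedAddCommGroup X] [NormedSpace ℝ X] (hT : IsTree T) {p : ℝ}
    (hp : 1 < p) {ν : Z → ℝ} (hν : SmoothNorm Z ν) {e : (T →₀ Z) →ₗ[ℝ] X} (hJ : IsJT T Z X p e)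
    (hA : Asplund X) : ∃ N : X → ℝ, SmoothNorm X N := by
  rcases subsingleton_or_nontrivial Z with hZ | hZ
  · have h0 : ∀ x : X, x = 0 := by
      intro x
      have hr : ∀ y, e y = 0 := by
        intro y
        have : y = 0 := by
          ext t
          exact Subsingleton.elim _ _
        rw [this, map_zero]
      have h1 : x ∈ closure (Set.range e) := hJ.dense x
      have h2 : Set.range e ⊆ {0} := by
        rintro _ ⟨y, rfl⟩
        exact hr y
      have h3 := closure_mono h2 h1
      rwa [closure_singleton] at h3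
    exact ⟨fun x => ‖x‖, norm_add_le, fun c x => by rw [norm_smul, Real.norm_eq_abs],
      ⟨1, 1, one_pos, one_pos, fun x => by simp⟩, fun x hx => absurd (h0 x) hx⟩
  · exact main_tree hT hp hν hJ (not_dyadic hT hp hJ hA)

end Pool.Agent.JTS
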